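import Pool.Agent.Helper52.AT.Defs

/-!
# Orbits attracted by a point (MP_295d38_ag), block AT-TAN: the cotangent space

Linear algebra in the cotangent space `m / m ^ 2` of the local ring of the orbit: the orbit map is
unramified modulo `t` (`tan_U`), and the operator `T` on `m / m ^ 2` is killed by a product of
factors `T - μ`, where `μ` runs through multipliers on the tangent space of the orbit (`tan_L`).
-/

set_option autoImplicit false

namespace Pool.Agent.Helper52.AT

open Filter Topology IsLocalRing MvPolynomial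

/-- the Zariski tangent space at `0` of the closure of the orbit `y` -/
def Tan {σ : Type} [Fintype σ] (y : ℕ → σ → ℂ) : Set (σ → ℂ) :=
  {h | ∀ g : MvPolynomial σ ℂ, (∀ᶠ n in atTop, eval (y n) g = 0) →
    ∑ j, h j * eval 0 (pderiv j g) = 0}

section Aux

variable {σ : Type} [Fintype σ] {O : Type} [CommRing O] [IsLocalRing O] [Algebra ℂ O]

/-- first order Taylor expansion at the origin -/
theorem tan_taylor (ι : MvPolynomial σ ℂ →ₐ[ℂ] O)
    (hι : ∀ g, ι g ∈ maximalIdeal O ↔ eval 0 g = 0) (g : MvPolynomial σ ℂ) :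
    ι g - algebraMap ℂ O (eval 0 g) - ∑ j, eval 0 (pderiv j g) • ι (X j) ∈
      maximalIdeal O ^ 2 := by
  classical
  induction g using MvPolynomial.induction_on with
  | C a =>
    have h1 : ι (C a) = algebraMap ℂ O a := by
      rw [← MvPolynomial.algebraMap_eq, AlgHom.commutes]
    simp [h1]
  | add p q hp hq =>
    have := Ideal.add_mem _ hp hq
    have h2 : ι (p + q) - algebraMap ℂ O (eval 0 (p + q))
        - ∑ j, eval 0 (pderiv j (p + q)) • ι (X j)
        = (ι p - algebraMap ℂ O (eval 0 p) - ∑ j, eval 0 (pderiv j p) • ι (X j))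
          + (ι q - algebraMap ℂ O (eval 0 q) - ∑ j, eval 0 (pderiv j q) • ι (X j)) := by
      simp only [map_add, add_smul, Finset.sum_add_distrib]
      ring
    rw [h2]
    exact this
  | mul_X p i hp =>
    have h3 : ∀ j, eval (0 : σ → ℂ) (pderiv j (p * X i)) = if j = i then eval 0 p else 0 := by
      intro j
      rw [Derivation.leibniz]
      simp only [smul_eq_mul, map_add, map_mul, eval_X, Pi.zero_apply, zero_mul, add_zero]
      rw [pderiv_X]
      by_cases hij : j = i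
      · subst hij; simp
      · simp [hij, Ne.symm hij]
    have h4 : ι (p * X i) - algebraMap ℂ O (eval 0 (p * X i))
        - ∑ j, eval 0 (pderiv j (p * X i)) • ι (X j) = (ι (p - C (eval 0 p))) * ι (X i) := by
      have h5 : ∑ j, eval 0 (pderiv j (p * X i)) • ι (X j) = eval 0 p • ι (X i) := by
        rw [Finset.sum_eq_single i]
        · rw [h3 i, if_pos rfl]
        · intro j _ hj
          rw [h3 j, if_neg hj, zero_smul]
        · intro h; exact absurd (Finset.mem_univ i) h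
      rw [h5]
      have h6 : ι (C (eval 0 p)) = algebraMap ℂ O (eval 0 p) := by
        rw [← MvPolynomial.algebraMap_eq, AlgHom.commutes]
      rw [map_mul, map_sub, h6, Algebra.smul_def]
      simp only [map_mul, eval_X, Pi.zero_apply, mul_zero, map_zero]
      ring
    rw [h4, pow_two]
    refine Ideal.mul_mem_mul ?_ ?_
    · rw [hι]; simp
    · rw [hι]; simp

omit [Fintype σ] in
theorem tan_X_mem (ι : MvPolynomial σ ℂ →ₐ[ℂ] O)
    (hι : ∀ g, ι g ∈ maximalIdeal O ↔ eval 0 g = 0) (j : σ) : ι (X j) ∈ maximalIdeal O := by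
  rw [hι]; simp

/-- an element of the ideal of the origin is its linear part modulo `m ^ 2` -/
theorem tan_lin (ι : MvPolynomial σ ℂ →ₐ[ℂ] O)
    (hι : ∀ g, ι g ∈ maximalIdeal O ↔ eval 0 g = 0) (g : MvPolynomial σ ℂ) (hg : eval 0 g = 0) :
    ι g - ∑ j, eval 0 (pderiv j g) • ι (X j) ∈ maximalIdeal O ^ 2 := by
  have := tan_taylor ι hι g
  rwa [hg, map_zero, sub_zero] at this

/-- every element of `m` is linear modulo `m ^ 2` -/
theorem tan_span (ι : MvPolynomial σ ℂ →ₐ[ℂ] O)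
    (hι : ∀ g, ι g ∈ maximalIdeal O ↔ eval 0 g = 0)
    (hfrac : ∀ a, ∃ g s, eval 0 s ≠ 0 ∧ ι s * a = ι g) (a : O) (ha : a ∈ maximalIdeal O) :
    ∃ l : σ → ℂ, a - ∑ j, l j • ι (X j) ∈ maximalIdeal O ^ 2 := by
  obtain ⟨g, s, hs, hsa⟩ := hfrac a
  have hg : eval 0 g = 0 := by
    rw [← hι, ← hsa]
    exact Ideal.mul_mem_left _ _ ha
  have h1 := tan_lin ι hι g hg
  have h2 : ι (s - C (eval 0 s)) * a ∈ maximalIdeal O ^ 2 := by
    rw [pow_two]
    refine Ideal.mul_mem_mul ?_ ha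
    rw [hι]; simp
  have h6 : ι (C (eval 0 s)) = algebraMap ℂ O (eval 0 s) := by
    rw [← MvPolynomial.algebraMap_eq, AlgHom.commutes]
  refine ⟨fun j => (eval 0 s)⁻¹ * eval 0 (pderiv j g), ?_⟩
  have h3 : a - ∑ j, ((eval 0 s)⁻¹ * eval 0 (pderiv j g)) • ι (X j)
      = algebraMap ℂ O (eval 0 s)⁻¹ *
        ((ι g - ∑ j, eval 0 (pderiv j g) • ι (X j)) - ι (s - C (eval 0 s)) * a) := by
    have h7 : algebraMap ℂ O (eval 0 s)⁻¹ * algebraMap ℂ O (eval 0 s) = 1 := by
      rw [← map_mul, inv_mul_cancel₀ hs, map_one]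
    have h8 : ∑ j, ((eval 0 s)⁻¹ * eval 0 (pderiv j g)) • ι (X j)
        = algebraMap ℂ O (eval 0 s)⁻¹ * ∑ j, eval 0 (pderiv j g) • ι (X j) := by
      rw [Finset.mul_sum]
      refine Finset.sum_congr rfl fun j _ => ?_
      rw [mul_smul, Algebra.smul_def (eval 0 s)⁻¹]
    rw [h8, map_sub, h6, ← hsa]
    linear_combination (-a) * h7
  rw [h3]
  exact Ideal.mul_mem_left _ _ (Ideal.sub_mem _ h1 h2)

end Aux

theorem tan_U {σ : Type} [Fintype σ] (y : ℕ → σ → ℂ) (P : σ → MvPolynomial σ ℂ)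
    (Q : MvPolynomial σ ℂ) (hQ : eval 0 Q ≠ 0) (hP : ∀ i, eval 0 (P i) = 0)
    {O : Type} [CommRing O] [IsLocalRing O] [IsNoetherianRing O] [Algebra ℂ O] (S : Sys O)
    (ι : MvPolynomial σ ℂ →ₐ[ℂ] O) (hι : ∀ g, ι g ∈ maximalIdeal O ↔ eval 0 g = 0)
    (hev : ∀ g, ∀ᶠ n in atTop, S.e (ι g) n = eval (y n) g)
    (hzero : ∀ a, (∀ᶠ n in atTop, S.e a n = 0) → a = 0)
    (hfrac : ∀ a, ∃ g s, eval 0 s ≠ 0 ∧ ι s * a = ι g)
    (hT : ∀ i, ι Q * S.T (ι (X i)) = ι (P i))
    (t : MvPolynomial σ ℂ) (ht : eval 0 t = 0)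
    (hunr : ∀ h ∈ Tan y, ∑ j, h j * eval 0 (pderiv j t) = 0 →
      (∀ i, ∑ j, h j * eval 0 (pderiv j (P i)) = 0) → h = 0) :
    maximalIdeal O ≤ Ideal.span (S.T '' (maximalIdeal O : Set O)) ⊔ Ideal.span {ι t} ⊔
      maximalIdeal O ^ 2 := by
  classical
  set J : Ideal O := Ideal.span (S.T '' (maximalIdeal O : Set O)) ⊔ Ideal.span {ι t} ⊔
      maximalIdeal O ^ 2 with hJ
  have hm2 : maximalIdeal O ^ 2 ≤ J := le_sup_right
  have htJ : ι t ∈ J :=
    (le_trans le_sup_right le_sup_left : Ideal.span {ι t} ≤ J) (Ideal.subset_span rfl)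
  have hTJ : ∀ a ∈ maximalIdeal O, S.T a ∈ J := fun a ha =>
    (le_trans le_sup_left le_sup_left : Ideal.span (S.T '' (maximalIdeal O : Set O)) ≤ J)
      (Ideal.subset_span ⟨a, ha, rfl⟩)
  -- the linear map
  let Λ : (σ → ℂ) →ₗ[ℂ] O := Fintype.linearCombination ℂ (fun j => ι (X j))
  have hΛ : ∀ l : σ → ℂ, Λ l = ∑ j, l j • ι (X j) := fun l => by
    simp [Λ, Fintype.linearCombination_apply]
  let V : Submodule ℂ (σ → ℂ) := (J.restrictScalars ℂ).comap Λ
  have hV : ∀ l, l ∈ V ↔ ∑ j, l j • ι (X j) ∈ J := fun l => by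
    simp only [V, Submodule.mem_comap, Submodule.restrictScalars_mem, hΛ]
  have hlin : ∀ g : MvPolynomial σ ℂ, eval 0 g = 0 → ι g ∈ J →
      (fun j => eval 0 (pderiv j g)) ∈ V := by
    intro g hg hgJ
    rw [hV]
    have h1 := hm2 (tan_lin ι hι g hg)
    have h2 := J.sub_mem hgJ h1
    simpa using h2
  have hVtop : V = ⊤ := by
    by_contra hne
    obtain ⟨f, hf0, hf⟩ := Submodule.exists_le_ker_of_lt_top V (lt_top_iff_ne_top.2 hne)
    have hfl : ∀ l : σ → ℂ, f l = ∑ j, f (Pi.single j 1) * l j := by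
      intro l
      conv_lhs => rw [← Finset.univ_sum_single l, map_sum]
      refine Finset.sum_congr rfl fun j _ => ?_
      have : (Pi.single j (l j) : σ → ℂ) = l j • Pi.single j 1 := by
        rw [← Pi.single_smul, smul_eq_mul, mul_one]
      rw [this, map_smul, smul_eq_mul, mul_comm]
    have hk : ∀ g : MvPolynomial σ ℂ, eval 0 g = 0 → ι g ∈ J →
        ∑ j, f (Pi.single j 1) * eval 0 (pderiv j g) = 0 := by
      intro g hg hgJ
      have := hf (hlin g hg hgJ)
      rw [LinearMap.mem_ker, hfl] at this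
      exact this
    have h0 : (fun j => f (Pi.single j 1)) = 0 := by
      refine hunr _ ?_ (hk t ht htJ) ?_
      · intro g hg
        have hz : ι g = 0 := by
          apply hzero
          filter_upwards [hev g, hg] with n h1 h2
          rw [h1, h2]
        refine hk g ?_ (by rw [hz]; exact J.zero_mem)
        rw [← hι, hz]; exact Ideal.zero_mem _
      · intro i
        refine hk (P i) (hP i) ?_
        rw [← hT i]
        exact Ideal.mul_mem_left _ _ (hTJ _ (tan_X_mem ι hι i))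
    apply hf0
    ext j
    simpa using congrFun h0 j
  intro a ha
  obtain ⟨l, hl⟩ := tan_span ι hι hfrac a ha
  have h1 : ∑ j, l j • ι (X j) ∈ J := by
    rw [← hV, hVtop]; trivial
  have h2 := J.add_mem (hm2 hl) h1
  simpa using h2

/-- folding commutes with a semilinear projection -/
theorem tan_fold {E : Type} [AddCommGroup E] [Module ℂ E] (Θ : Module.End ℂ E) (L : List ℂ)
    (v : E) : L.foldl (fun v μ => Θ v - μ • v) v =
      Polynomial.aeval Θ ((L.map fun μ => Polynomial.X - Polynomial.C μ).prod) v := by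
  induction L generalizing v with
  | nil => simp
  | cons μ L ih =>
    rw [List.foldl_cons, ih, List.map_cons, List.prod_cons, mul_comm, map_mul]
    simp [Module.End.mul_apply]

theorem tan_L {σ : Type} [Fintype σ] (y : ℕ → σ → ℂ) (P : σ → MvPolynomial σ ℂ)
    (Q : MvPolynomial σ ℂ) (hQ : eval 0 Q ≠ 0) (hP : ∀ i, eval 0 (P i) = 0)
    {O : Type} [CommRing O] [IsLocalRing O] [IsNoetherianRing O] [Algebra ℂ O] (S : Sys O)
    (ι : MvPolynomial σ ℂ →ₐ[ℂ] O) (hι : ∀ g, ι g ∈ maximalIdeal O ↔ eval 0 g = 0)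
    (hev : ∀ g, ∀ᶠ n in atTop, S.e (ι g) n = eval (y n) g)
    (hzero : ∀ a, (∀ᶠ n in atTop, S.e a n = 0) → a = 0)
    (hfrac : ∀ a, ∃ g s, eval 0 s ≠ 0 ∧ ι s * a = ι g)
    (hT : ∀ i, ι Q * S.T (ι (X i)) = ι (P i)) :
    ∃ L : List ℂ, (∀ μ ∈ L, ∃ h ∈ Tan y, h ≠ 0 ∧
        ∀ i, ∑ j, h j * eval 0 (pderiv j (P i)) = μ * eval 0 Q * h i) ∧
      ∀ a ∈ maximalIdeal O, appT S.T L a ∈ maximalIdeal O ^ 2 := by
  classical
  let M : Submodule ℂ O := (maximalIdeal O).restrictScalars ℂ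
  let N : Submodule ℂ M := ((maximalIdeal O ^ 2).restrictScalars ℂ).comap M.subtype
  have hM : ∀ a, a ∈ M ↔ a ∈ maximalIdeal O := fun a => Iff.rfl
  have hN : ∀ a : M, a ∈ N ↔ (a : O) ∈ maximalIdeal O ^ 2 := fun a => Iff.rfl
  have hTM : ∀ a ∈ M, S.T.toLinearMap a ∈ M := fun a ha => S.T_mem a ha
  have hT2 : ∀ a ∈ maximalIdeal O ^ 2, S.T a ∈ maximalIdeal O ^ 2 := by
    intro a ha
    have h1 : maximalIdeal O ≤ (maximalIdeal O).comap S.T := fun a ha => S.T_mem a ha
    have h2 : maximalIdeal O ^ 2 ≤ (maximalIdeal O ^ 2).comap S.T :=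
      (Ideal.pow_right_mono h1 2).trans (Ideal.le_comap_pow _ 2)
    exact h2 ha
  let TM : M →ₗ[ℂ] M := S.T.toLinearMap.restrict hTM
  have hTN : N ≤ N.comap TM := fun a ha => hT2 _ ha
  let Θ : Module.End ℂ (M ⧸ N) := N.mapQ N TM hTN
  have hΘ : ∀ a : M, Θ (N.mkQ a) = N.mkQ (TM a) := fun a => rfl
  let x : σ → M := fun j => ⟨ι (X j), tan_X_mem ι hι j⟩
  let Λ : (σ → ℂ) →ₗ[ℂ] M ⧸ N := Fintype.linearCombination ℂ (fun j => N.mkQ (x j))
  have hΛ : ∀ l : σ → ℂ, Λ l = ∑ j, l j • N.mkQ (x j) := fun l => by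
    simp [Λ, Fintype.linearCombination_apply]
  have hmk : ∀ (a : M) (l : σ → ℂ), (a : O) - ∑ j, l j • ι (X j) ∈ maximalIdeal O ^ 2 →
      N.mkQ a = ∑ j, l j • N.mkQ (x j) := by
    intro a l h
    have h1 : N.mkQ a = N.mkQ (∑ j, l j • x j) := by
      rw [Submodule.mkQ_apply, Submodule.mkQ_apply, Submodule.Quotient.eq, hN]
      simpa [x] using h
    rw [h1, map_sum]
    simp
  have hsurj : Function.Surjective Λ := by
    intro v
    obtain ⟨a, rfl⟩ := N.mkQ_surjective v
    obtain ⟨l, hl⟩ := tan_span ι hι hfrac (a : O) a.2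
    exact ⟨l, by rw [hΛ, hmk a l hl]⟩
  have : Module.Finite ℂ (M ⧸ N) := Module.Finite.of_surjective Λ hsurj
  refine ⟨(minpoly ℂ Θ).roots.toList, ?_, ?_⟩
  · intro μ hμ
    rw [Multiset.mem_toList] at hμ
    have hroot : (minpoly ℂ Θ).IsRoot μ := (Polynomial.mem_roots'.1 hμ).2
    have heig := Module.End.hasEigenvalue_of_isRoot hroot
    -- the range of `Θ - μ` is proper
    have hker : ¬ Function.Injective (Θ - algebraMap ℂ (Module.End ℂ (M ⧸ N)) μ) := by
      obtain ⟨v, hv⟩ := heig.exists_hasEigenvector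
      intro hinj
      apply hv.2
      apply hinj
      rw [map_zero, LinearMap.sub_apply, hv.apply_eq_smul, Module.algebraMap_end_apply, sub_self]
    have hrange : LinearMap.range (Θ - algebraMap ℂ (Module.End ℂ (M ⧸ N)) μ) ≠ ⊤ := by
      intro h
      exact hker (LinearMap.injective_iff_surjective.2 (LinearMap.range_eq_top.1 h))
    obtain ⟨f, hf0, hf⟩ := Submodule.exists_le_ker_of_lt_top _ (lt_top_iff_ne_top.2 hrange)
    have hfΘ : ∀ v, f (Θ v) = μ * f v := by
      intro v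
      have h1 := hf ⟨v, rfl⟩
      rw [LinearMap.mem_ker, LinearMap.sub_apply, Module.algebraMap_end_apply, map_sub, map_smul,
        smul_eq_mul] at h1
      exact sub_eq_zero.1 h1
    have hlin : ∀ g : MvPolynomial σ ℂ, (hg : eval 0 g = 0) →
        ∑ j, f (N.mkQ (x j)) * eval 0 (pderiv j g) = f (N.mkQ ⟨ι g, (hι g).2 hg⟩) := by
      intro g hg
      rw [hmk ⟨ι g, (hι g).2 hg⟩ (fun j => eval 0 (pderiv j g)) (tan_lin ι hι g hg), map_sum]
      refine Finset.sum_congr rfl fun j _ => ?_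
      rw [map_smul, smul_eq_mul, mul_comm]
    refine ⟨fun j => f (N.mkQ (x j)), ?_, ?_, ?_⟩
    · intro g hg
      have hz : ι g = 0 := by
        apply hzero
        filter_upwards [hev g, hg] with n h1 h2
        rw [h1, h2]
      have hg0 : eval 0 g = 0 := by
        rw [← hι, hz]; exact Ideal.zero_mem _
      rw [hlin g hg0]
      have : (⟨ι g, (hι g).2 hg0⟩ : M) = 0 := Subtype.ext hz
      rw [this, map_zero, map_zero]
    · intro h0
      apply hf0
      refine LinearMap.ext fun v => ?_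
      obtain ⟨l, rfl⟩ := hsurj v
      rw [hΛ, map_sum, LinearMap.zero_apply]
      refine Finset.sum_eq_zero fun j _ => ?_
      rw [map_smul, show f (N.mkQ (x j)) = 0 from congrFun h0 j, smul_zero]
    · intro i
      rw [hlin (P i) (hP i)]
      have h1 : N.mkQ (⟨ι (P i), (hι (P i)).2 (hP i)⟩ : M)
          = eval 0 Q • Θ (N.mkQ (x i)) := by
        rw [hΘ, ← map_smul, Submodule.mkQ_apply, Submodule.mkQ_apply, Submodule.Quotient.eq, hN]
        have h2 : ((⟨ι (P i), (hι (P i)).2 (hP i)⟩ - eval 0 Q • TM (x i) : M) : O)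
            = ι (Q - C (eval 0 Q)) * S.T (ι (X i)) := by
          have h6 : ι (C (eval 0 Q)) = algebraMap ℂ O (eval 0 Q) := by
            rw [← MvPolynomial.algebraMap_eq, AlgHom.commutes]
          rw [map_sub, h6, sub_mul, hT i, ← Algebra.smul_def]
          rfl
        rw [h2, pow_two]
        refine Ideal.mul_mem_mul ?_ (S.T_mem _ (tan_X_mem ι hι i))
        rw [hι]; simp
      rw [h1, map_smul, hfΘ, smul_eq_mul]
      ring
  · intro a ha
    have key : ∀ (L : List ℂ) (a : M), ∃ b : M, (b : O) = appT S.T L (a : O) ∧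
        N.mkQ b = L.foldl (fun v μ => Θ v - μ • v) (N.mkQ a) := by
      intro L
      induction L with
      | nil => exact fun a => ⟨a, rfl, rfl⟩
      | cons μ L ih =>
        intro a
        obtain ⟨b, hb1, hb2⟩ := ih (TM a - μ • a)
        refine ⟨b, ?_, ?_⟩
        · rw [hb1]; rfl
        · rw [hb2, List.foldl_cons, map_sub, map_smul, hΘ]
    obtain ⟨b, hb1, hb2⟩ := key (minpoly ℂ Θ).roots.toList ⟨a, ha⟩
    rw [tan_fold] at hb2
    have hprod : (((minpoly ℂ Θ).roots.toList.map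
        fun μ => Polynomial.X - Polynomial.C μ).prod) = minpoly ℂ Θ := by
      have h1 := (IsAlgClosed.splits (minpoly ℂ Θ)).eq_prod_roots
      rw [(minpoly.monic (Algebra.IsIntegral.isIntegral Θ)).leadingCoeff, map_one, one_mul] at h1
      conv_rhs => rw [h1]
      rw [← Multiset.prod_coe, ← Multiset.map_coe, Multiset.coe_toList]
    rw [hprod, minpoly.aeval, LinearMap.zero_apply] at hb2
    rw [Submodule.mkQ_apply, Submodule.Quotient.mk_eq_zero, hN, hb1] at hb2
    exact hb2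

end Pool.Agent.Helper52.AT
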